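import Mathlib
import Pool.Agent.H8.CurseOne

set_option autoImplicit false
open MeasureTheory Set Filter

namespace Pool.Agent.Results.MP_2335a4_an.CurseNonneg

/-- a non-negative quadrature formula with `N` nodes in `[0,1)^d` -/
structure Rule (N d : ℕ) where
  node : Fin N → Fin d → ℝ
  weight : Fin N → ℝ
  node_mem : ∀ k i, node k i ∈ Ico (0 : ℝ) 1
  weight_nonneg : ∀ k, 0 ≤ weight k

/-- the worst-case error, in the form of the generalized `L_1`-discrepancy -/
noncomputable def err {N d : ℕ} (A : Rule N d) : ℝ :=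
  ∫ x in Icc (0 : Fin d → ℝ) 1,
    |∑ k, A.weight k * (Set.pi univ fun i => Ico 0 (x i)).indicator 1 (A.node k) - ∏ i, x i|

/-- the `N`-th minimal error `e⁺(N,d)` -/
noncomputable def minErr (N d : ℕ) : ℝ := ⨅ A : Rule N d, err A

theorem result : ∃ C : ℝ, 1 < C ∧ ∀ᶠ d : ℕ in atTop,
    ∀ e : ℝ, e < 1 / 2 → ∀ N : ℕ, minErr N d ≤ e * (1 / 2) ^ d → C ^ d ≤ N := by
  obtain ⟨D, hD⟩ := Pool.Agent.H8.CurseOne.curse
  refine ⟨1.004, by norm_num, eventually_atTop.mpr ⟨D, fun d hd e he N h => ?_⟩⟩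
  by_contra hN
  push Not at hN
  have : Nonempty (Rule N d) := ⟨⟨0, 0, fun k i => by simp, fun k => le_rfl⟩⟩
  have key : 1 / 2 * (1 / 2 : ℝ) ^ d ≤ minErr N d := by
    refine le_ciInf fun A => ?_
    have := hD d hd N hN A.node A.weight (fun k i => ⟨(A.node_mem k i).1, (A.node_mem k i).2.le⟩)
      A.weight_nonneg
    refine this.trans (le_of_eq ?_)
    unfold err
    congr 2
    ext t
    congr 2
    refine Finset.sum_congr rfl fun k _ => ?_
    have e : A.node k ∈ (Set.pi univ fun i => Ico 0 (t i)) ↔ ∀ i, A.node k i < t i :=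
      ⟨fun h i => (h i trivial).2, fun h i _ => ⟨(A.node_mem k i).1, h i⟩⟩
    by_cases hk : ∀ i, A.node k i < t i
    · rw [if_pos hk, indicator_of_mem (e.mpr hk)]
      rfl
    · rw [if_neg hk, indicator_of_notMem fun h => hk (e.mp h)]
  have : (0 : ℝ) < (1 / 2) ^ d := by positivity
  nlinarith

end Pool.Agent.Results.MP_2335a4_an.CurseNonneg
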